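import Pool.Agent.H2.BEFAEA.Core

set_option autoImplicit false

namespace Pool.Agent.Results.MP_befaea_co.ExactValue

open Pool.Agent.H2.BEFAEA
open scoped RealInnerProductSpace

/-- `s` is the edge of some `m`-dimensional cube inscribed in `[0,1]^n`: some congruent copy
(image under an affine isometric embedding) of `[0,s]^m` is contained in the unit cube. -/
def Inscribed (m n : ℕ) (s : ℝ) : Prop :=
  0 ≤ s ∧ ∃ φ : EuclideanSpace ℝ (Fin m) →ᵃⁱ[ℝ] EuclideanSpace ℝ (Fin n),
    ∀ x, (∀ i, x i ∈ Set.Icc 0 s) → ∀ j, φ x j ∈ Set.Icc (0 : ℝ) 1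

/-- `f m n` is the largest edge of an `m`-dimensional cube inscribed in `[0,1]^n`. -/
noncomputable def f (m n : ℕ) : ℝ := sSup {s | Inscribed m n s}

lemma upper (N : ℕ) (hodd : Odd N) (s : ℝ) (h : Inscribed 2 N s) :
    2 * s ^ 2 ≤ N - 3 / 4 := by
  obtain ⟨hs, φ, hφ⟩ := h
  obtain ⟨u, hu⟩ : ∃ u : EuclideanSpace ℝ (Fin 2), u = !₂[s, 0] := ⟨_, rfl⟩
  obtain ⟨v, hv⟩ : ∃ v : EuclideanSpace ℝ (Fin 2), v = !₂[0, s] := ⟨_, rfl⟩
  have hu0 : u 0 = s := by rw [hu]; rfl
  have hu1 : u 1 = 0 := by rw [hu]; rfl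
  have hv0 : v 0 = 0 := by rw [hv]; rfl
  have hv1 : v 1 = s := by rw [hv]; rfl
  have hlin : ∀ x, φ x = φ.linearIsometry x + φ 0 := by
    intro x
    have := φ.map_vadd 0 x
    simpa using this
  have h0 := hφ 0 (fun i => by simp [hs])
  have hmu : ∀ i, u i ∈ Set.Icc 0 s := by
    intro i
    fin_cases i
    · simp [hu0, hs]
    · simp [hu1, hs]
  have hmv : ∀ i, v i ∈ Set.Icc 0 s := by
    intro i
    fin_cases i
    · simp [hv0, hs]
    · simp [hv1, hs]
  have h1 := hφ u hmu
  have h2 := hφ v hmv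
  have h3 := hφ (u + v) (by
    intro i
    fin_cases i
    · simp [hu0, hv0, hs]
    · simp [hu1, hv1, hs])
  have hnu : ∑ j, (φ.linearIsometry u j) ^ 2 = s ^ 2 := by
    have h4 := φ.linearIsometry.norm_map u
    have h5 : ‖φ.linearIsometry u‖ ^ 2 = ‖u‖ ^ 2 := by rw [h4]
    rw [EuclideanSpace.norm_sq_eq, EuclideanSpace.norm_sq_eq] at h5
    simpa [Fin.sum_univ_two, hu0, hu1, sq_abs] using h5
  have hnv : ∑ j, (φ.linearIsometry v j) ^ 2 = s ^ 2 := by
    have h4 := φ.linearIsometry.norm_map v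
    have h5 : ‖φ.linearIsometry v‖ ^ 2 = ‖v‖ ^ 2 := by rw [h4]
    rw [EuclideanSpace.norm_sq_eq, EuclideanSpace.norm_sq_eq] at h5
    simpa [Fin.sum_univ_two, hv0, hv1, sq_abs] using h5
  have huv : ∑ j, (φ.linearIsometry u j) * (φ.linearIsometry v j) = 0 := by
    have h4 := φ.linearIsometry.inner_map_map u v
    rw [PiLp.inner_apply, PiLp.inner_apply] at h4
    simp only [Fin.sum_univ_two, hu0, hu1, hv0, hv1] at h4
    simp only [RCLike.inner_apply, conj_trivial, mul_zero, zero_mul, add_zero] at h4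
    rw [← h4]
    exact Finset.sum_congr rfl fun j _ => mul_comm _ _
  have hcore := core (ι := Fin N) (fun j => φ.linearIsometry u j) (fun j => φ.linearIsometry v j)
    (by
      intro j
      have a0 := h0 j
      have a1 := h1 j
      have a2 := h2 j
      have a3 := h3 j
      rw [hlin] at a1 a2 a3
      rw [map_add] at a3
      simp only [PiLp.add_apply, Set.mem_Icc] at a0 a1 a2 a3
      rcases abs_cases (φ.linearIsometry u j) with ⟨e1, -⟩ | ⟨e1, -⟩ <;>
        rcases abs_cases (φ.linearIsometry v j) with ⟨e2, -⟩ | ⟨e2, -⟩ <;>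
        · rw [e1, e2]
          linarith [a0.1, a0.2, a1.1, a1.2, a2.1, a2.2, a3.1, a3.2])
    (by simpa using hodd) (s ^ 2) hnu hnv huv
  simpa using hcore

/-- first side vector of the extremal square -/
noncomputable def av (m : ℕ) : EuclideanSpace ℝ (Fin (2 * m + 3)) :=
  WithLp.toLp 2 (fun j => if (j : ℕ) < 2 then 3 / 4 else if (j : ℕ) < m + 2 then 1 else 0)

/-- second side vector of the extremal square -/
noncomputable def bv (m : ℕ) : EuclideanSpace ℝ (Fin (2 * m + 3)) :=
  WithLp.toLp 2 (fun j => if (j : ℕ) = 0 then 1 / 4 else if (j : ℕ) = 1 then -1 / 4 else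
    if (j : ℕ) < m + 2 then 0 else 1)

/-- a vertex of the extremal square -/
noncomputable def pv (m : ℕ) : EuclideanSpace ℝ (Fin (2 * m + 3)) :=
  WithLp.toLp 2 (fun j => if (j : ℕ) = 1 then 1 / 4 else 0)

lemma sum_split (m : ℕ) (g : ℕ → ℝ) (c d : ℝ) (hc : ∀ j, 2 ≤ j → j < m + 2 → g j = c)
    (hd : ∀ j, m + 2 ≤ j → g j = d) :
    ∑ j : Fin (2 * m + 3), g j = g 0 + g 1 + m * c + (m + 1) * d := by
  rw [Fin.sum_univ_eq_sum_range]
  have e : 2 * m + 3 = (m + 2) + (m + 1) := by ring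
  rw [e, Finset.sum_range_add]
  have e1 : ∑ x ∈ Finset.range (m + 1), g (m + 2 + x) = (m + 1) * d := by
    rw [Finset.sum_congr rfl (g := fun _ => d) (fun x _ => hd _ (by omega)), Finset.sum_const,
      Finset.card_range, nsmul_eq_mul]
    push_cast
    ring
  have e2 : ∑ x ∈ Finset.range (m + 2), g x = g 0 + g 1 + m * c := by
    rw [add_comm m 2, Finset.sum_range_add, Finset.sum_congr rfl (g := fun _ => c)
      (s₁ := Finset.range m) (fun x hx => hc _ (by omega) (by
        rw [Finset.mem_range] at hx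
        omega)), Finset.sum_const, Finset.card_range, nsmul_eq_mul]
    simp [Finset.sum_range_succ]
  rw [e1, e2]

lemma lower (m : ℕ) : Inscribed 2 (2 * m + 3) (Real.sqrt ((8 * (m + 1) + 1) / 8)) := by
  obtain ⟨s, hs⟩ : ∃ s, s = Real.sqrt ((8 * ((m : ℝ) + 1) + 1) / 8) := ⟨_, rfl⟩
  rw [← hs]
  have hpos : 0 < (8 * ((m : ℝ) + 1) + 1) / 8 := by positivity
  have hs0 : 0 < s := hs ▸ Real.sqrt_pos.2 hpos
  have hs2 : s ^ 2 = (8 * ((m : ℝ) + 1) + 1) / 8 := by rw [hs, Real.sq_sqrt hpos.le]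
  have ha : ∑ j, (av m j) ^ 2 = s ^ 2 := by
    have := sum_split m (fun j => (if j < 2 then 3 / 4 else if j < m + 2 then 1 else 0 : ℝ) ^ 2) 1 0
      (by
        intro j h1 h2
        have : ¬ j < 2 := by omega
        simp [this, h2])
      (by
        intro j h1
        have h3 : ¬ j < 2 := by omega
        have h4 : ¬ j < m + 2 := by omega
        simp [h3, h4])
    show ∑ j : Fin (2 * m + 3), (if (j : ℕ) < 2 then 3 / 4 else if (j : ℕ) < m + 2 then 1 else 0 : ℝ) ^ 2 = s ^ 2
    rw [this, hs2]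
    norm_num
    ring
  have hb : ∑ j, (bv m j) ^ 2 = s ^ 2 := by
    have := sum_split m (fun j => (if j = 0 then 1 / 4 else if j = 1 then -1 / 4 else
      if j < m + 2 then 0 else 1 : ℝ) ^ 2) 0 1
      (by
        intro j h1 h2
        have h3 : j ≠ 0 := by omega
        have h4 : j ≠ 1 := by omega
        simp [h3, h4, h2])
      (by
        intro j h1
        have h3 : j ≠ 0 := by omega
        have h4 : j ≠ 1 := by omega
        have h5 : ¬ j < m + 2 := by omega
        simp [h3, h4, h5])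
    show ∑ j : Fin (2 * m + 3), (if (j : ℕ) = 0 then 1 / 4 else if (j : ℕ) = 1 then -1 / 4 else
      if (j : ℕ) < m + 2 then 0 else 1 : ℝ) ^ 2 = s ^ 2
    rw [this, hs2]
    norm_num
    ring
  have hab : ∑ j, av m j * bv m j = 0 := by
    have := sum_split m (fun j => (if j < 2 then 3 / 4 else if j < m + 2 then 1 else 0 : ℝ) *
      (if j = 0 then 1 / 4 else if j = 1 then -1 / 4 else if j < m + 2 then 0 else 1 : ℝ)) 0 0
      (by
        intro j h1 h2
        have h3 : j ≠ 0 := by omega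
        have h4 : j ≠ 1 := by omega
        simp [h3, h4, h2])
      (by
        intro j h1
        have h3 : ¬ j < 2 := by omega
        have h5 : ¬ j < m + 2 := by omega
        simp [h3, h5])
    show ∑ j : Fin (2 * m + 3), (if (j : ℕ) < 2 then 3 / 4 else if (j : ℕ) < m + 2 then 1 else 0 : ℝ) *
      (if (j : ℕ) = 0 then 1 / 4 else if (j : ℕ) = 1 then -1 / 4 else
      if (j : ℕ) < m + 2 then 0 else 1 : ℝ) = 0
    rw [this]
    norm_num
  let L : EuclideanSpace ℝ (Fin 2) →ₗᵢ[ℝ] EuclideanSpace ℝ (Fin (2 * m + 3)) :=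
    { toFun := fun x => (x 0 / s) • av m + (x 1 / s) • bv m
      map_add' := by
        intro x y
        simp only [PiLp.add_apply, add_div]
        module
      map_smul' := by
        intro c x
        simp only [PiLp.smul_apply, smul_eq_mul, RingHom.id_apply, mul_div_assoc]
        module
      norm_map' := by
        intro x
        have e : ‖(x 0 / s) • av m + (x 1 / s) • bv m‖ ^ 2 = ‖x‖ ^ 2 := by
          rw [EuclideanSpace.norm_sq_eq, EuclideanSpace.norm_sq_eq, Fin.sum_univ_two]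
          simp only [PiLp.add_apply, PiLp.smul_apply, smul_eq_mul, Real.norm_eq_abs, sq_abs]
          have e1 : ∀ j, (x 0 / s * av m j + x 1 / s * bv m j) ^ 2 =
              (x 0 / s) ^ 2 * (av m j) ^ 2 + (x 1 / s) ^ 2 * (bv m j) ^ 2 +
                2 * (x 0 / s) * (x 1 / s) * (av m j * bv m j) := by
            intro j
            ring
          rw [Finset.sum_congr rfl fun j _ => e1 j, Finset.sum_add_distrib, Finset.sum_add_distrib,
            ← Finset.mul_sum, ← Finset.mul_sum, ← Finset.mul_sum, ha, hb, hab]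
          field_simp
          ring
        exact (pow_left_inj₀ (norm_nonneg _) (norm_nonneg _) two_ne_zero).1 e }
  refine ⟨hs0.le, (AffineIsometryEquiv.vaddConst ℝ (pv m)).toAffineIsometry.comp L.toAffineIsometry, ?_⟩
  intro x hx j
  have hval : ((AffineIsometryEquiv.vaddConst ℝ (pv m)).toAffineIsometry.comp L.toAffineIsometry) x j =
      x 0 / s * av m j + x 1 / s * bv m j + pv m j := rfl
  rw [hval]
  have t0 : 0 ≤ x 0 / s := div_nonneg (hx 0).1 hs0.le
  have t1 : x 0 / s ≤ 1 := (div_le_one hs0).2 (hx 0).2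
  have u0 : 0 ≤ x 1 / s := div_nonneg (hx 1).1 hs0.le
  have u1 : x 1 / s ≤ 1 := (div_le_one hs0).2 (hx 1).2
  show x 0 / s * (if (j : ℕ) < 2 then 3 / 4 else if (j : ℕ) < m + 2 then 1 else 0 : ℝ) +
    x 1 / s * (if (j : ℕ) = 0 then 1 / 4 else if (j : ℕ) = 1 then -1 / 4 else
      if (j : ℕ) < m + 2 then 0 else 1 : ℝ) + (if (j : ℕ) = 1 then 1 / 4 else 0 : ℝ) ∈ Set.Icc (0 : ℝ) 1
  rw [Set.mem_Icc]
  by_cases c0 : (j : ℕ) = 0
  · simp [c0]
    constructor <;> linarith
  · by_cases c1 : (j : ℕ) = 1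
    · simp [c1]
      constructor <;> linarith
    · have c2 : ¬ (j : ℕ) < 2 := by omega
      by_cases c3 : (j : ℕ) < m + 2
      · simp [c0, c1, c2, c3]
        constructor <;> linarith
      · simp [c0, c1, c2, c3]
        constructor <;> linarith

/-- For every `n ≥ 1` the largest square in the unit cube of dimension `2 n + 1` has side
`√((8 n + 1) / 8)`. -/
theorem result : ∀ n : ℕ, 1 ≤ n →
    IsGreatest {s | Inscribed 2 (2 * n + 1) s} (Real.sqrt ((8 * n + 1) / 8)) ∧
    f 2 (2 * n + 1) = Real.sqrt ((8 * n + 1) / 8) := by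
  intro n hn
  obtain ⟨m, rfl⟩ : ∃ m, n = m + 1 := ⟨n - 1, by omega⟩
  have hg : IsGreatest {s | Inscribed 2 (2 * (m + 1) + 1) s}
      (Real.sqrt ((8 * ((m + 1 : ℕ) : ℝ) + 1) / 8)) := by
    constructor
    · have := lower m
      rw [Set.mem_ofPred_eq]
      push_cast
      exact this
    · intro s hs
      have h1 := upper (2 * (m + 1) + 1) ⟨m + 1, rfl⟩ s hs
      apply Real.le_sqrt_of_sq_le
      push_cast at h1 ⊢
      linarith
  exact ⟨hg, hg.csSup_eq⟩

end Pool.Agent.Results.MP_befaea_co.ExactValue
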